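import Pool.Agent.Run7.h500.RD.Stm

/-!
# Project RD, piece PL
-/

set_option autoImplicit false

open Filter Topology Set Metric

namespace Pool.Agent.Run7.h733.RD

open Pool.Agent.Run7.h500.RD

/-- polynomial bound near the corner `p` -/
theorem near (hD : S_DISC) (G : ℂ → ℂ) (p p' M A : ℝ) (n : ℕ) (hM : 0 ≤ M) (hA : 0 ≤ A)
    (hG : DifferentiableOn ℂ G {w | w.im ≠ 0 ∨ (p < w.re ∧ w.re < p')})
    (hv : ∀ w : ℂ, w.im ≠ 0 → |w.im| ≤ 1 → (w.re = p ∨ w.re = p') → ‖G w‖ ≤ M)
    (hb : ∀ w : ℂ, w.im ≠ 0 → |w.im| ≤ 1 → p ≤ w.re → w.re ≤ p' → ‖G w‖ ≤ A / |w.im| ^ n)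
    (w : ℂ) (hw : w ≠ p) (hre : p ≤ w.re) (h1 : ‖w - p‖ ≤ 1) (h2 : ‖w - p‖ ≤ (p' - p) / 2) :
    ‖G w‖ ≤ M + A * 20 ^ n / ‖w - p‖ ^ n := by
  have hpos : 0 < ‖w - p‖ := norm_pos_iff.2 (sub_ne_zero.2 hw)
  have hnn : 0 ≤ A * 20 ^ n / ‖w - p‖ ^ n := by positivity
  have him1 : |w.im| ≤ ‖w - p‖ := by
    have := Complex.abs_im_le_norm (w - p)
    simpa using this
  have hre1 : w.re - p ≤ ‖w - p‖ := by
    have := Complex.re_le_norm (w - p)
    simpa using this
  have htri : ‖w - p‖ ≤ (w.re - p) + |w.im| := by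
    have := Complex.norm_le_abs_re_add_abs_im (w - p)
    simp only [Complex.sub_re, Complex.ofReal_re, Complex.sub_im, Complex.ofReal_im, sub_zero] at this
    rwa [abs_of_nonneg (by linarith)] at this
  rcases hre.eq_or_lt with heq | hlt
  · have him : w.im ≠ 0 := by
      intro h
      exact hw (Complex.ext (by simpa using heq.symm) (by simpa using h))
    have := hv w him (him1.trans h1) (Or.inl heq.symm)
    linarith
  by_cases hc : (w.re - p) / 4 ≤ |w.im|
  · -- a direct bound
    have him : 0 < |w.im| := lt_of_lt_of_le (by linarith) hc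
    have h3 := hb w (abs_pos.1 him) (him1.trans h1) hre (by linarith)
    have h4 : ‖w - p‖ ≤ 5 * |w.im| := by linarith
    have h5 : A / |w.im| ^ n ≤ A * 20 ^ n / ‖w - p‖ ^ n := by
      rw [div_le_div_iff₀ (by positivity) (by positivity)]
      calc A * ‖w - p‖ ^ n ≤ A * (20 * |w.im|) ^ n := by
            apply mul_le_mul_of_nonneg_left _ hA
            exact pow_le_pow_left₀ (norm_nonneg _) (by linarith) n
        _ = A * 20 ^ n * |w.im| ^ n := by rw [mul_pow]; ring
    linarith
  · push Not at hc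
    set r : ℝ := (w.re - p) / 2 with hr
    have hrpos : 0 < r := by rw [hr]; linarith
    have hball : ∀ z ∈ closedBall (w.re : ℂ) r, p < z.re ∧ z.re < p' ∧ |z.im| ≤ 1 := by
      intro z hz
      have hz' : ‖z - (w.re : ℂ)‖ ≤ r := by simpa [dist_eq_norm] using hz
      have h3 := Complex.abs_re_le_norm (z - (w.re : ℂ))
      have h4 := Complex.abs_im_le_norm (z - (w.re : ℂ))
      simp only [Complex.sub_re, Complex.ofReal_re, Complex.sub_im, Complex.ofReal_im,
        sub_zero] at h3 h4
      have h5 := abs_le.1 (h3.trans hz')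
      refine ⟨by linarith [h5.1], by linarith [h5.2], by linarith⟩
    have hsub : closedBall (w.re : ℂ) r ⊆ {w | w.im ≠ 0 ∨ (p < w.re ∧ w.re < p')} := fun z hz =>
      Or.inr ⟨(hball z hz).1, (hball z hz).2.1⟩
    have h3 := hD G w.re r A n hrpos hA (hG.mono (ball_subset_closedBall.trans hsub))
      (hG.continuousOn.mono hsub) (fun z hz him => by
        have h4 := hball z (sphere_subset_closedBall hz)
        exact hb z him h4.2.2 h4.1.le h4.2.1.le) w (by
          rw [mem_closedBall, dist_eq_norm]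
          have : w - (w.re : ℂ) = ((w.im : ℝ) : ℂ) * Complex.I := by
            apply Complex.ext <;> simp
          rw [this, norm_mul, Complex.norm_I, mul_one, Complex.norm_real, Real.norm_eq_abs, hr]
          linarith)
    have h6 : A * 8 ^ n / r ^ n ≤ A * 20 ^ n / ‖w - p‖ ^ n := by
      rw [div_le_div_iff₀ (by positivity) (by positivity)]
      calc A * 8 ^ n * ‖w - p‖ ^ n = A * (8 * ‖w - p‖) ^ n := by rw [mul_pow]; ring
        _ ≤ A * (20 * r) ^ n := by
            apply mul_le_mul_of_nonneg_left _ hA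
            exact pow_le_pow_left₀ (by positivity) (by linarith) n
        _ = A * 20 ^ n * r ^ n := by rw [mul_pow]; ring
    linarith

/-- the barrier at a corner -/
theorem barrier (ε : ℝ) (hε : 0 < ε) (z : ℂ) (hre : 0 ≤ z.re) :
    ‖Complex.exp (-(ε : ℂ) * (Complex.log z) ^ 2)‖ ≤
      Real.exp (ε * 4) * Real.exp (-ε * (Real.log ‖z‖) ^ 2) := by
  rw [Complex.norm_exp, ← Real.exp_add]
  apply Real.exp_le_exp.2
  have h1 : (-(ε : ℂ) * (Complex.log z) ^ 2).re =
      -ε * ((Real.log ‖z‖) ^ 2 - (Complex.arg z) ^ 2) := by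
    rw [sq, Complex.mul_re, Complex.mul_re, Complex.log_re, Complex.log_im]
    simp only [Complex.neg_re, Complex.neg_im, Complex.ofReal_re, Complex.ofReal_im, neg_zero,
      zero_mul, sub_zero]
    ring
  rw [h1]
  have h2 : |Complex.arg z| ≤ 2 := by
    refine (Complex.abs_arg_le_pi_div_two_iff.2 hre).trans ?_
    linarith [Real.pi_le_four]
  have h3 : (Complex.arg z) ^ 2 ≤ 4 := by
    rw [← sq_abs]
    nlinarith [abs_nonneg (Complex.arg z)]
  nlinarith

theorem barrier' (ε : ℝ) (hε : 0 < ε) (z : ℂ) (hre : 0 ≤ z.re) :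
    ‖Complex.exp (-(ε : ℂ) * (Complex.log z) ^ 2)‖ ≤ Real.exp (ε * 4) := by
  refine (barrier ε hε z hre).trans ?_
  have : Real.exp (-ε * (Real.log ‖z‖) ^ 2) ≤ 1 := by
    apply Real.exp_le_one_iff.2
    nlinarith [sq_nonneg (Real.log ‖z‖)]
  nlinarith [Real.exp_pos (ε * 4)]

/-- the barrier beats powers -/
theorem beat (ε : ℝ) (hε : 0 < ε) (n : ℕ) (t : ℝ) (ht : 0 < t) :
    (t ^ n)⁻¹ * Real.exp (-ε * (Real.log t) ^ 2) ≤ Real.exp (((n : ℝ) + 1) ^ 2 / (4 * ε)) * t := by
  have h1 : (t ^ n)⁻¹ = Real.exp (-(n : ℝ) * Real.log t) := by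
    rw [neg_mul, Real.exp_neg, ← Real.log_pow, Real.exp_log (by positivity)]
  have h2 : t = Real.exp (Real.log t) := (Real.exp_log ht).symm
  rw [h1, ← Real.exp_add]
  conv_rhs => rw [h2]
  rw [← Real.exp_add]
  apply Real.exp_le_exp.2
  set s := Real.log t
  have h3 : -(((n : ℝ) + 1) * s) - ε * s ^ 2 ≤ ((n : ℝ) + 1) ^ 2 / (4 * ε) := by
    rw [le_div_iff₀ (by positivity)]
    nlinarith [sq_nonneg (2 * ε * s + ((n : ℝ) + 1))]
  nlinarith

theorem t_PL : S_PL := by
  intro hD G p p' M A n hpp hM hA hG hv hh hb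
  -- bounds near the corners
  have nl := near hD G p p' M A n hM hA hG hv hb
  have nr : ∀ w : ℂ, w ≠ p' → w.re ≤ p' → ‖w - p'‖ ≤ 1 → ‖w - p'‖ ≤ (p' - p) / 2 →
      ‖G w‖ ≤ M + A * 20 ^ n / ‖w - p'‖ ^ n := by
    intro w hw hre h1 h2
    have key := near hD (fun z => G ((p : ℂ) + p' - z)) p p' M A n hM hA ?_ ?_ ?_
      ((p : ℂ) + p' - w) ?_ ?_ ?_ ?_
    · have e1 : (p : ℂ) + p' - ((p : ℂ) + p' - w) = w := by ring
      have e2 : ‖(p : ℂ) + p' - w - p‖ = ‖w - p'‖ := by
        rw [← norm_neg]; congr 1; ring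
      simp only [e1, e2] at key
      exact key
    · apply DifferentiableOn.comp hG
      · exact Differentiable.differentiableOn (by fun_prop)
      · intro z hz
        rcases hz with hz | ⟨hz1, hz2⟩
        · left
          simpa using hz
        · right
          simp only [Complex.sub_re, Complex.add_re, Complex.ofReal_re]
          constructor <;> linarith
    · intro z hz1 hz2 hz3
      apply hv
      · simpa using hz1
      · simpa using hz2
      · simp only [Complex.sub_re, Complex.add_re, Complex.ofReal_re]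
        rcases hz3 with h | h
        · right; linarith
        · left; linarith
    · intro z hz1 hz2 hz3 hz4
      have := hb ((p : ℂ) + p' - z) (by simpa using hz1) (by simpa using hz2)
        (by simp only [Complex.sub_re, Complex.add_re, Complex.ofReal_re]; linarith)
        (by simp only [Complex.sub_re, Complex.add_re, Complex.ofReal_re]; linarith)
      simpa using this
    · intro h
      apply hw
      linear_combination -h
    · simp only [Complex.sub_re, Complex.add_re, Complex.ofReal_re]; linarith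
    · rwa [show (p : ℂ) + p' - w - p = -(w - p') by ring, norm_neg]
    · rwa [show (p : ℂ) + p' - w - p = -(w - p') by ring, norm_neg]
  -- the closed rectangle
  set Q : Set ℂ := Ioo p p' ×ℂ Ioo (-1 : ℝ) 1 with hQ
  have hQcl : closure Q = Icc p p' ×ℂ Icc (-1 : ℝ) 1 := by
    rw [hQ, Complex.closure_reProdIm, closure_Ioo hpp.ne, closure_Ioo (by norm_num)]
  have hQfr : frontier Q = Icc p p' ×ℂ {-1, 1} ∪ {p, p'} ×ℂ Icc (-1 : ℝ) 1 := by
    rw [hQ, Complex.frontier_reProdIm, closure_Ioo hpp.ne, closure_Ioo (by norm_num),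
      frontier_Ioo hpp, frontier_Ioo (by norm_num)]
  have hQb : Bornology.IsBounded Q :=
    Bornology.IsBounded.reProdIm (isBounded_Ioo _ _) (isBounded_Ioo _ _)
  intro w hw1 hw2 hw3
  -- the bound for each positive epsilon
  have main : ∀ ε : ℝ, 0 < ε →
      ‖G w * Complex.exp (-(ε : ℂ) * (Complex.log (w - p)) ^ 2) *
        Complex.exp (-(ε : ℂ) * (Complex.log (p' - w)) ^ 2)‖ ≤
        M * (Real.exp (ε * 4) * Real.exp (ε * 4)) := by
    intro ε hε
    set H : ℂ → ℂ := fun z => G z * Complex.exp (-(ε : ℂ) * (Complex.log (z - p)) ^ 2) *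
        Complex.exp (-(ε : ℂ) * (Complex.log (p' - z)) ^ 2) with hH
    set F : ℂ → ℂ := fun z => if z = p ∨ z = p' then 0 else H z with hF
    have hFp : F p = 0 := by simp [hF]
    have hFp' : F p' = 0 := by simp [hF]
    have hFH : ∀ z : ℂ, z ≠ p → z ≠ p' → F z = H z := by
      intro z h1 h2
      simp [hF, h1, h2]
    have hHd : ∀ z : ℂ, p ≤ z.re → z.re ≤ p' → z ≠ p → z ≠ p' → DifferentiableAt ℂ H z := by
      intro z h1 h2 h3 h4
      have hopen : IsOpen {w : ℂ | w.im ≠ 0 ∨ (p < w.re ∧ w.re < p')} := by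
        apply IsOpen.union
        · exact isOpen_ne_fun Complex.continuous_im continuous_const
        · exact (isOpen_lt continuous_const Complex.continuous_re).inter
            (isOpen_lt Complex.continuous_re continuous_const)
      have hin : z ∈ {w : ℂ | w.im ≠ 0 ∨ (p < w.re ∧ w.re < p')} := by
        by_cases him : z.im = 0
        · right
          constructor
          · rcases h1.eq_or_lt with h | h
            · exact absurd (Complex.ext (by simpa using h.symm) (by simpa using him)) h3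
            · exact h
          · rcases h2.eq_or_lt with h | h
            · exact absurd (Complex.ext (by simpa using h) (by simpa using him)) h4
            · exact h
        · left; exact him
      have hGd : DifferentiableAt ℂ G z := hG.differentiableAt (hopen.mem_nhds hin)
      have hs1 : z - p ∈ Complex.slitPlane := by
        rw [Complex.mem_slitPlane_iff]
        by_cases him : z.im = 0
        · left
          rcases hin with h | h
          · exact absurd him h
          · simpa using h.1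
        · right; simpa using him
      have hs2 : (p' : ℂ) - z ∈ Complex.slitPlane := by
        rw [Complex.mem_slitPlane_iff]
        by_cases him : z.im = 0
        · left
          rcases hin with h | h
          · exact absurd him h
          · simpa using h.2
        · right; simpa using him
      have d1 : DifferentiableAt ℂ (fun z : ℂ => Complex.log (z - p)) z :=
        DifferentiableAt.clog (by fun_prop) hs1
      have d2 : DifferentiableAt ℂ (fun z : ℂ => Complex.log ((p' : ℂ) - z)) z :=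
        DifferentiableAt.clog (by fun_prop) hs2
      rw [hH]
      exact (hGd.mul ((d1.pow 2).const_mul _).cexp).mul ((d2.pow 2).const_mul _).cexp
    have hnep : ∀ z : ℂ, z ∈ Q → z ≠ p ∧ z ≠ p' := by
      intro z hz
      rw [hQ, Complex.mem_reProdIm] at hz
      constructor
      · rintro rfl
        simpa using hz.1.1
      · rintro rfl
        simpa using hz.1.2
    -- bound of the norm of H
    have hHb : ∀ z : ℂ, p ≤ z.re → z.re ≤ p' → ‖H z‖ ≤
        ‖G z‖ * (Real.exp (ε * 4) * Real.exp (ε * 4)) := by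
      intro z h1 h2
      rw [hH]
      simp only [norm_mul]
      rw [mul_assoc]
      apply mul_le_mul_of_nonneg_left _ (norm_nonneg _)
      exact mul_le_mul (barrier' ε hε _ (by simpa using h1)) (barrier' ε hε _ (by simpa using h2))
        (norm_nonneg _) (Real.exp_pos _).le
    -- the estimates near the corners
    set K : ℝ := (M + A * 20 ^ n) * (Real.exp (ε * 4) * Real.exp (ε * 4)) *
      Real.exp (((n : ℝ) + 1) ^ 2 / (4 * ε)) with hK
    have hE : ∀ t : ℝ, 0 < t → t ≤ 1 →
        (M + A * 20 ^ n / t ^ n) * (Real.exp (ε * 4) * Real.exp (-ε * (Real.log t) ^ 2) *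
          Real.exp (ε * 4)) ≤ K * t := by
      intro t ht ht1
      have h1 := beat ε hε n t ht
      have h2 : M + A * 20 ^ n / t ^ n ≤ (M + A * 20 ^ n) * (t ^ n)⁻¹ := by
        have : 1 ≤ (t ^ n)⁻¹ := (one_le_inv₀ (by positivity)).2 (pow_le_one₀ ht.le ht1)
        rw [div_eq_mul_inv]
        nlinarith
      have hX : 0 < Real.exp (ε * 4) := Real.exp_pos _
      have hY : 0 < Real.exp (-ε * (Real.log t) ^ 2) := Real.exp_pos _
      calc (M + A * 20 ^ n / t ^ n) * (Real.exp (ε * 4) * Real.exp (-ε * (Real.log t) ^ 2) *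
            Real.exp (ε * 4))
          ≤ ((M + A * 20 ^ n) * (t ^ n)⁻¹) * (Real.exp (ε * 4) *
            Real.exp (-ε * (Real.log t) ^ 2) * Real.exp (ε * 4)) :=
            mul_le_mul_of_nonneg_right h2 (by positivity)
        _ = (M + A * 20 ^ n) * (Real.exp (ε * 4) * Real.exp (ε * 4)) *
            ((t ^ n)⁻¹ * Real.exp (-ε * (Real.log t) ^ 2)) := by ring
        _ ≤ (M + A * 20 ^ n) * (Real.exp (ε * 4) * Real.exp (ε * 4)) *
            (Real.exp (((n : ℝ) + 1) ^ 2 / (4 * ε)) * t) :=
            mul_le_mul_of_nonneg_left h1 (by positivity)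
        _ = K * t := by rw [hK]; ring
    have hcl : ∀ z : ℂ, p ≤ z.re → z.re ≤ p' → z ≠ p → z ≠ p' → ‖z - p‖ ≤ 1 →
        ‖z - p‖ ≤ (p' - p) / 2 → ‖F z‖ ≤ K * ‖z - p‖ := by
      intro z h1 h2 h3 h4 h5 h6
      rw [hFH z h3 h4]
      have hpos : 0 < ‖z - p‖ := norm_pos_iff.2 (sub_ne_zero.2 h3)
      refine le_trans ?_ (hE _ hpos h5)
      rw [hH]
      simp only [norm_mul]
      rw [mul_assoc]
      apply mul_le_mul (nl z h3 h1 h5 h6) _ (by positivity) (by positivity)
      exact mul_le_mul (barrier ε hε _ (by simpa using h1)) (barrier' ε hε _ (by simpa using h2))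
        (norm_nonneg _) (by positivity)
    have hcr : ∀ z : ℂ, p ≤ z.re → z.re ≤ p' → z ≠ p → z ≠ p' → ‖z - p'‖ ≤ 1 →
        ‖z - p'‖ ≤ (p' - p) / 2 → ‖F z‖ ≤ K * ‖z - p'‖ := by
      intro z h1 h2 h3 h4 h5 h6
      rw [hFH z h3 h4]
      have hpos : 0 < ‖z - p'‖ := norm_pos_iff.2 (sub_ne_zero.2 h4)
      refine le_trans ?_ (hE _ hpos h5)
      rw [hH]
      simp only [norm_mul]
      rw [mul_assoc]
      apply mul_le_mul (nr z h4 h2 h5 h6) _ (by positivity) (by positivity)
      have hb2 := barrier ε hε ((p' : ℂ) - z) (by simpa using h2)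
      rw [norm_sub_rev (p' : ℂ) z] at hb2
      have hb1 := barrier' ε hε (z - p) (by simpa using h1)
      calc ‖Complex.exp (-(ε : ℂ) * (Complex.log (z - p)) ^ 2)‖ *
          ‖Complex.exp (-(ε : ℂ) * (Complex.log ((p' : ℂ) - z)) ^ 2)‖
          ≤ Real.exp (ε * 4) * (Real.exp (ε * 4) * Real.exp (-ε * (Real.log ‖z - p'‖) ^ 2)) :=
            mul_le_mul hb1 hb2 (norm_nonneg _) (Real.exp_pos _).le
        _ = Real.exp (ε * 4) * Real.exp (-ε * (Real.log ‖z - p'‖) ^ 2) * Real.exp (ε * 4) := by
            ring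
    -- F is differentiable in Q and continuous on the closure
    have hFd : DifferentiableOn ℂ F Q := by
      intro z hz
      have hz' := hz
      rw [hQ, Complex.mem_reProdIm] at hz'
      obtain ⟨h3, h4⟩ := hnep z hz
      have h5 : F =ᶠ[𝓝 z] H := by
        filter_upwards [isOpen_ne.mem_nhds h3, isOpen_ne.mem_nhds h4] with y hy1 hy2
        exact hFH y hy1 hy2
      exact ((hHd z hz'.1.1.le hz'.1.2.le h3 h4).congr_of_eventuallyEq h5).differentiableWithinAt
    have hcorner : ∀ (a : ℝ), F a = 0 → (∀ z : ℂ, p ≤ z.re → z.re ≤ p' → z ≠ p → z ≠ p' →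
        ‖z - a‖ ≤ 1 → ‖z - a‖ ≤ (p' - p) / 2 → ‖F z‖ ≤ K * ‖z - a‖) →
        ContinuousWithinAt F (closure Q) a := by
      intro a ha hza
      have hKn : 0 ≤ K := by rw [hK]; positivity
      rw [ContinuousWithinAt, ha, tendsto_zero_iff_norm_tendsto_zero]
      have hlim : Tendsto (fun z : ℂ => K * ‖z - a‖) (𝓝[closure Q] (a : ℂ)) (𝓝 0) := by
        have h0 : Tendsto (fun z : ℂ => K * ‖z - a‖) (𝓝 (a : ℂ)) (𝓝 (K * ‖(a : ℂ) - a‖)) :=
          Continuous.tendsto (by fun_prop) _
        rw [sub_self, norm_zero, mul_zero] at h0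
        exact h0.mono_left nhdsWithin_le_nhds
      refine squeeze_zero' (Eventually.of_forall fun z => norm_nonneg _) ?_ hlim
      have hρ : 0 < min 1 ((p' - p) / 2) := lt_min one_pos (by linarith)
      filter_upwards [self_mem_nhdsWithin, nhdsWithin_le_nhds (ball_mem_nhds (a : ℂ) hρ)] with z hz1 hz2
      rw [hQcl, Complex.mem_reProdIm] at hz1
      rw [mem_ball, dist_eq_norm] at hz2
      by_cases h3 : z = p
      · rw [h3, hFp, norm_zero]; positivity
      by_cases h4 : z = p'
      · rw [h4, hFp', norm_zero]; positivity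
      exact hza z hz1.1.1 hz1.1.2 h3 h4 (hz2.le.trans (min_le_left _ _))
        (hz2.le.trans (min_le_right _ _))
    have hFc : ContinuousOn F (closure Q) := by
      intro z hz
      have hz' := hz
      rw [hQcl, Complex.mem_reProdIm] at hz'
      by_cases h3 : z = p
      · rw [h3]; exact hcorner p hFp hcl
      by_cases h4 : z = p'
      · rw [h4]; exact hcorner p' hFp' hcr
      have h5 : F =ᶠ[𝓝 z] H := by
        filter_upwards [isOpen_ne.mem_nhds h3, isOpen_ne.mem_nhds h4] with y hy1 hy2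
        exact hFH y hy1 hy2
      exact (((hHd z hz'.1.1 hz'.1.2 h3 h4).continuousAt.congr h5.symm)).continuousWithinAt
    have hfr : ∀ z ∈ frontier Q, ‖F z‖ ≤ M * (Real.exp (ε * 4) * Real.exp (ε * 4)) := by
      intro z hz
      have hnn : 0 ≤ M * (Real.exp (ε * 4) * Real.exp (ε * 4)) := by positivity
      by_cases h3 : z = p
      · rw [h3, hFp, norm_zero]; exact hnn
      by_cases h4 : z = p'
      · rw [h4, hFp', norm_zero]; exact hnn
      rw [hFH z h3 h4]
      have hzc : z ∈ closure Q := frontier_subset_closure hz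
      rw [hQcl, Complex.mem_reProdIm] at hzc
      refine (hHb z hzc.1.1 hzc.1.2).trans ?_
      apply mul_le_mul_of_nonneg_right _ (by positivity)
      rw [hQfr] at hz
      rcases hz with hz | hz
      · rw [Complex.mem_reProdIm] at hz
        apply hh z _ hz.1.1 hz.1.2
        rcases hz.2 with h | h
        · rw [h]; norm_num
        · rw [mem_singleton_iff.1 h]; norm_num
      · rw [Complex.mem_reProdIm] at hz
        have hre : z.re = p ∨ z.re = p' := by simpa using hz.1
        apply hv z _ (abs_le.2 hz.2) hre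
        intro him
        rcases hre with h | h
        · exact h3 (Complex.ext (by simpa using h) (by simpa using him))
        · exact h4 (Complex.ext (by simpa using h) (by simpa using him))
    have hwQ : w ∈ Q := by
      rw [hQ, Complex.mem_reProdIm]
      exact ⟨⟨hw1, hw2⟩, abs_lt.1 hw3⟩
    have hfin := Complex.norm_le_of_forall_mem_frontier_norm_le hQb ⟨hFd, hFc⟩ hfr
      (subset_closure hwQ)
    rw [hFH w (hnep w hwQ).1 (hnep w hwQ).2] at hfin
    exact hfin
  -- let epsilon tend to zero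
  have hl : Tendsto (fun ε : ℝ => ‖G w * Complex.exp (-(ε : ℂ) * (Complex.log (w - p)) ^ 2) *
        Complex.exp (-(ε : ℂ) * (Complex.log (p' - w)) ^ 2)‖) (𝓝[>] 0) (𝓝 ‖G w‖) := by
    have h0 : Tendsto (fun ε : ℝ => ‖G w * Complex.exp (-(ε : ℂ) * (Complex.log (w - p)) ^ 2) *
        Complex.exp (-(ε : ℂ) * (Complex.log (p' - w)) ^ 2)‖) (𝓝 0)
        (𝓝 ‖G w * Complex.exp (-((0 : ℝ) : ℂ) * (Complex.log (w - p)) ^ 2) *
        Complex.exp (-((0 : ℝ) : ℂ) * (Complex.log (p' - w)) ^ 2)‖) :=
      Continuous.tendsto (by fun_prop) _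
    have e : ‖G w * Complex.exp (-((0 : ℝ) : ℂ) * (Complex.log (w - p)) ^ 2) *
        Complex.exp (-((0 : ℝ) : ℂ) * (Complex.log (p' - w)) ^ 2)‖ = ‖G w‖ := by simp
    rw [e] at h0
    exact h0.mono_left nhdsWithin_le_nhds
  have hr : Tendsto (fun ε : ℝ => M * (Real.exp (ε * 4) * Real.exp (ε * 4))) (𝓝[>] 0) (𝓝 M) := by
    have h0 : Tendsto (fun ε : ℝ => M * (Real.exp (ε * 4) * Real.exp (ε * 4))) (𝓝 0)
        (𝓝 (M * (Real.exp (0 * 4) * Real.exp (0 * 4)))) := Continuous.tendsto (by fun_prop) _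
    have e : M * (Real.exp (0 * 4) * Real.exp (0 * 4)) = M := by simp
    rw [e] at h0
    exact h0.mono_left nhdsWithin_le_nhds
  refine le_of_tendsto_of_tendsto hl hr ?_
  filter_upwards [self_mem_nhdsWithin] with ε hε
  exact main ε hε

end Pool.Agent.Run7.h733.RD
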