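import Pool.Agent.Run7.h500.RD.Stm

/-!
# Project RD, piece DISC
-/

set_option autoImplicit false

open Filter Topology Set Metric

namespace Pool.Agent.Run7.h733.RD

open Pool.Agent.Run7.h500.RD

theorem circ (u r : ℝ) (z : ℂ) (hz : z ∈ sphere (u : ℂ) r) :
    ‖(z - u) ^ 2 - (r : ℂ) ^ 2‖ = 2 * r * |z.im| := by
  have hz' : ‖z - u‖ = r := by simpa [dist_eq_norm] using hz
  have h1 : (r : ℂ) ^ 2 = (z - u) * (starRingEnd ℂ) (z - u) := by
    rw [Complex.mul_conj, Complex.normSq_eq_norm_sq, hz']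
    push_cast
    ring
  have h2 : (z - u) ^ 2 - (r : ℂ) ^ 2 = (z - u) * ((z - u) - (starRingEnd ℂ) (z - u)) := by
    rw [h1]; ring
  have h3 : (z - u) - (starRingEnd ℂ) (z - u) = ((2 * z.im : ℝ) : ℂ) * Complex.I := by
    apply Complex.ext
    · simp
    · simp; ring
  rw [h2, h3, norm_mul, norm_mul, hz', Complex.norm_I, Complex.norm_real, Real.norm_eq_abs,
    abs_mul, abs_two, mul_one]
  ring

theorem t_DISC : S_DISC := by
  intro G u r A q hr hA hd hc hs z hz
  set P : ℂ → ℂ := fun z => G z * ((z - u) ^ 2 - (r : ℂ) ^ 2) ^ q with hP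
  have hPc : ContinuousOn P (closedBall (u : ℂ) r) :=
    hc.mul (Continuous.continuousOn (by fun_prop))
  have hPd : DifferentiableOn ℂ P (ball (u : ℂ) r) :=
    hd.mul (Differentiable.differentiableOn (by fun_prop))
  have hDC : DiffContOnCl ℂ P (ball (u : ℂ) r) :=
    ⟨hPd, by rw [closure_ball _ hr.ne']; exact hPc⟩
  -- the bound on the circle away from the axis
  have hb1 : ∀ w ∈ sphere (u : ℂ) r, w.im ≠ 0 → ‖P w‖ ≤ A * (2 * r) ^ q := by
    intro w hw him
    have h1 := hs w hw him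
    have hpos : 0 < |w.im| := abs_pos.2 him
    rw [hP]
    simp only [norm_mul, norm_pow]
    rw [circ u r w hw]
    calc ‖G w‖ * (2 * r * |w.im|) ^ q ≤ A / |w.im| ^ q * (2 * r * |w.im|) ^ q :=
          mul_le_mul_of_nonneg_right h1 (by positivity)
      _ = A * (2 * r) ^ q := by
          rw [mul_pow]
          field_simp
  have hb2 : ∀ w ∈ sphere (u : ℂ) r, ‖P w‖ ≤ A * (2 * r) ^ q := by
    intro w hw
    by_cases him : w.im ≠ 0
    · exact hb1 w hw him
    push Not at him
    have hw' : ‖w - u‖ = r := by simpa [dist_eq_norm] using hw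
    have hre : (w - u).re ≠ 0 := by
      intro h
      have : w - u = 0 := Complex.ext (by simpa using h) (by simpa using him)
      rw [this, norm_zero] at hw'
      exact hr.ne hw'
    set γ : ℝ → ℂ := fun t => u + (w - u) * Complex.exp (t * Complex.I) with hγ
    have hγs : ∀ t, γ t ∈ sphere (u : ℂ) r := by
      intro t
      rw [mem_sphere, dist_eq_norm, hγ]
      simp only [add_sub_cancel_left, norm_mul]
      rw [Complex.norm_exp_ofReal_mul_I, mul_one, hw']
    have hγ0 : γ 0 = w := by simp [hγ]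
    have hγc : Continuous γ := by rw [hγ]; fun_prop
    have hγim : ∀ t, (γ t).im = (w - u).re * Real.sin t := by
      intro t
      rw [hγ]
      simp only [Complex.add_im, Complex.ofReal_im, Complex.mul_im, Complex.exp_ofReal_mul_I_re,
        Complex.exp_ofReal_mul_I_im]
      have : (w - (u : ℂ)).im = 0 := by simpa using him
      rw [this]
      ring
    have hlim : Tendsto (fun t => ‖P (γ t)‖) (𝓝[>] 0) (𝓝 ‖P w‖) := by
      have h1 : Tendsto γ (𝓝[>] 0) (𝓝[closedBall (u : ℂ) r] w) := by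
        apply tendsto_nhdsWithin_of_tendsto_nhds_of_eventually_within
        · have := hγc.tendsto 0
          rw [hγ0] at this
          exact this.mono_left nhdsWithin_le_nhds
        · exact Eventually.of_forall fun t => sphere_subset_closedBall (hγs t)
      have h2 : Tendsto P (𝓝[closedBall (u : ℂ) r] w) (𝓝 (P w)) :=
        hPc w (sphere_subset_closedBall hw)
      exact (h2.comp h1).norm
    refine le_of_tendsto hlim ?_
    have : Ioo (0 : ℝ) Real.pi ∈ 𝓝[>] (0 : ℝ) := Ioo_mem_nhdsGT Real.pi_pos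
    filter_upwards [this] with t ht
    apply hb1 _ (hγs t)
    rw [hγim]
    exact mul_ne_zero hre (Real.sin_pos_of_pos_of_lt_pi ht.1 ht.2).ne'
  have hmax : ‖P z‖ ≤ A * (2 * r) ^ q := by
    apply Complex.norm_le_of_forall_mem_frontier_norm_le isBounded_ball hDC
    · intro w hw
      rw [frontier_ball _ hr.ne'] at hw
      exact hb2 w hw
    · rw [closure_ball _ hr.ne']
      exact closedBall_subset_closedBall (by linarith) hz
  have hz' : ‖z - u‖ ≤ r / 2 := by simpa [dist_eq_norm] using hz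
  have hlow : r ^ 2 / 2 ≤ ‖(z - u) ^ 2 - (r : ℂ) ^ 2‖ := by
    have h1 : ‖(r : ℂ) ^ 2‖ - ‖(z - u) ^ 2‖ ≤ ‖(z - u) ^ 2 - (r : ℂ) ^ 2‖ := by
      rw [norm_sub_rev]
      exact norm_sub_norm_le _ _
    have h2 : ‖(r : ℂ) ^ 2‖ = r ^ 2 := by
      rw [norm_pow, Complex.norm_real, Real.norm_eq_abs, sq_abs]
    have h3 : ‖(z - u) ^ 2‖ ≤ (r / 2) ^ 2 := by
      rw [norm_pow]
      exact pow_le_pow_left₀ (norm_nonneg _) hz' 2
    rw [h2] at h1
    nlinarith
  have h4 : ‖G z‖ * (r ^ 2 / 2) ^ q ≤ A * (2 * r) ^ q := by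
    refine le_trans ?_ hmax
    rw [hP]
    simp only [norm_mul, norm_pow]
    exact mul_le_mul_of_nonneg_left (pow_le_pow_left₀ (by positivity) hlow q) (norm_nonneg _)
  have h5 : ‖G z‖ ≤ A * 4 ^ q / r ^ q := by
    rw [le_div_iff₀ (by positivity)]
    have h6 : 0 < (r / 2) ^ q := by positivity
    have h7 : (‖G z‖ * r ^ q) * (r / 2) ^ q ≤ (A * 4 ^ q) * (r / 2) ^ q := by
      calc (‖G z‖ * r ^ q) * (r / 2) ^ q = ‖G z‖ * (r ^ 2 / 2) ^ q := by
            rw [mul_assoc, ← mul_pow]; congr 2; ring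
        _ ≤ A * (2 * r) ^ q := h4
        _ = (A * 4 ^ q) * (r / 2) ^ q := by
            rw [mul_assoc, ← mul_pow]; congr 2; ring
    exact le_of_mul_le_mul_right h7 h6
  refine le_trans h5 ?_
  apply div_le_div_of_nonneg_right _ (by positivity)
  exact mul_le_mul_of_nonneg_left (pow_le_pow_left₀ (by norm_num) (by norm_num) q) hA

end Pool.Agent.Run7.h733.RD
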